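import Mathlib
import Pool.Agent.helper62.K3.Defs

/-!
# HK: the long exact sequence (module AL)
-/

set_option autoImplicit false

noncomputable section

namespace Pool.Agent.helper62.K3

section
variable {V : Type} [AddCommGroup V] [Module (ZMod 2) V] {d : V →ₗ[ZMod 2] V}
  {Z Z' : ℕ → Submodule (ZMod 2) V} {A B C : Submodule (ZMod 2) V} {p : V →ₗ[ZMod 2] V}

lemma AL_mem_Cyc {W : Submodule (ZMod 2) V} {n : ℕ} {v : V} :
    v ∈ Cyc d Z W n ↔ v ∈ W ∧ d v ∈ Z (n + 1) := Iff.rfl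

lemma AL_mem_Bdy {W : Submodule (ZMod 2) V} {n : ℕ} {v : V} :
    v ∈ Bdy d Z W n ↔ ∃ w ∈ W, ∃ z ∈ W, z ∈ Z n ∧ d w + z = v := by
  constructor
  · intro h
    obtain ⟨x, ⟨w, hw, rfl⟩, z, ⟨hz1, hz2⟩, hv⟩ := Submodule.mem_sup.mp h
    exact ⟨w, hw, z, hz1, hz2, hv⟩
  · rintro ⟨w, hw, z, hz1, hz2, hv⟩
    exact Submodule.mem_sup.mpr ⟨d w, ⟨w, hw, rfl⟩, z, ⟨hz1, hz2⟩, hv⟩

/-- The class of a cocycle. -/
def AL_cl {W : Submodule (ZMod 2) V} {n : ℕ} (v : V) (hv : v ∈ Cyc d Z W n) : Coh d Z W n :=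
  Submodule.Quotient.mk ⟨v, hv⟩

lemma AL_cl_eq {W : Submodule (ZMod 2) V} {n : ℕ} {v w : V} (hv : v ∈ Cyc d Z W n)
    (hw : w ∈ Cyc d Z W n) : AL_cl v hv = AL_cl w hw ↔ v - w ∈ Bdy d Z W n := by
  unfold AL_cl
  rw [Submodule.Quotient.eq]
  rfl

lemma AL_cl_zero {W : Submodule (ZMod 2) V} {n : ℕ} {v : V} (hv : v ∈ Cyc d Z W n) :
    AL_cl v hv = 0 ↔ v ∈ Bdy d Z W n := by
  unfold AL_cl
  rw [Submodule.Quotient.mk_eq_zero]
  rfl

lemma AL_cl_surj {W : Submodule (ZMod 2) V} {n : ℕ} (x : Coh d Z W n) :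
    ∃ (v : V) (hv : v ∈ Cyc d Z W n), AL_cl v hv = x := by
  obtain ⟨⟨v, hv⟩, rfl⟩ := Submodule.Quotient.mk_surjective _ x
  exact ⟨v, hv, rfl⟩

/-- A linear map between cohomology groups induced by a linear map on cocycles. -/
lemma AL_desc {W W' : Submodule (ZMod 2) V} {Y Y' : ℕ → Submodule (ZMod 2) V} {n m : ℕ}
    (f : Cyc d Y W n →ₗ[ZMod 2] Coh d Y' W' m)
    (hf : ∀ v (hv : v ∈ Cyc d Y W n), v ∈ Bdy d Y W n → f ⟨v, hv⟩ = 0) :
    ∃ F : Coh d Y W n →ₗ[ZMod 2] Coh d Y' W' m, ∀ v (hv : v ∈ Cyc d Y W n),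
      F (AL_cl v hv) = f ⟨v, hv⟩ := by
  refine ⟨Submodule.liftQ _ f ?_, ?_⟩
  · rintro ⟨v, hv⟩ h
    exact hf v hv h
  · intro v hv
    exact Submodule.liftQ_apply _ _ _

/-- The map induced by the inclusion. -/
lemma AL_i (S : SES d Z Z' A B C p) (n : ℕ) :
    ∃ F : Coh d Z A n →ₗ[ZMod 2] Coh d Z B n, ∀ v (hv : v ∈ Cyc d Z A n),
      F (AL_cl v hv) = AL_cl v ⟨S.AB hv.1, hv.2⟩ := by
  let f : Cyc d Z A n →ₗ[ZMod 2] Coh d Z B n :=
    (Submodule.mkQ _).comp (LinearMap.codRestrict (Cyc d Z B n) (Cyc d Z A n).subtype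
      (fun v => ⟨S.AB v.2.1, v.2.2⟩))
  obtain ⟨F, hF⟩ := AL_desc (Y := Z) (Y' := Z) f (by
    intro v hv hb
    have h1 : f ⟨v, hv⟩ = AL_cl v (⟨S.AB hv.1, hv.2⟩ : v ∈ Cyc d Z B n) := rfl
    rw [h1, AL_cl_zero, AL_mem_Bdy]
    obtain ⟨w, hw, z, hz1, hz2, h⟩ := AL_mem_Bdy.mp hb
    exact ⟨w, S.AB hw, z, S.AB hz1, hz2, h⟩)
  exact ⟨F, fun v hv => by rw [hF]; rfl⟩

lemma AL_p_cyc (S : SES d Z Z' A B C p) {n : ℕ} {v : V} (hv : v ∈ Cyc d Z B n) :
    p v ∈ Cyc d Z' C n := by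
  refine ⟨S.pB v hv.1, ?_⟩
  change d (p v) ∈ Z' (n + 1)
  rw [← S.pd v hv.1]
  exact S.pZ (n + 1) _ (S.Bd v hv.1) hv.2

/-- The map induced by `p`. -/
lemma AL_q (S : SES d Z Z' A B C p) (n : ℕ) :
    ∃ F : Coh d Z B n →ₗ[ZMod 2] Coh d Z' C n, ∀ v (hv : v ∈ Cyc d Z B n),
      F (AL_cl v hv) = AL_cl (p v) (AL_p_cyc S hv) := by
  let f : Cyc d Z B n →ₗ[ZMod 2] Coh d Z' C n :=
    (Submodule.mkQ _).comp (LinearMap.codRestrict (Cyc d Z' C n) (p.comp (Cyc d Z B n).subtype)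
      (fun v => AL_p_cyc S v.2))
  obtain ⟨F, hF⟩ := AL_desc (Y := Z) (Y' := Z') f (by
    intro v hv hb
    have h1 : f ⟨v, hv⟩ = AL_cl (p v) (AL_p_cyc S hv) := rfl
    rw [h1, AL_cl_zero, AL_mem_Bdy]
    obtain ⟨w, hw, z, hz1, hz2, h⟩ := AL_mem_Bdy.mp hb
    refine ⟨p w, S.pB w hw, p z, S.pB z hz1, S.pZ n z hz1 hz2, ?_⟩
    rw [← S.pd w hw, ← map_add, h])
  exact ⟨F, fun v hv => by rw [hF]; rfl⟩

/-- Linear choice of preimages. -/
lemma AL_choice {U U' : Submodule (ZMod 2) V} (T : Submodule (ZMod 2) (V × V))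
    (hT : ∀ u ∈ U, ∃ w, (u, w) ∈ T) (hU : U' = U) :
    ∃ s : U' →ₗ[ZMod 2] V, ∀ u : U', ((u : V), s u) ∈ T := by
  subst hU
  let T' : Submodule (ZMod 2) (V × V) := T ⊓ U'.comap (LinearMap.fst (ZMod 2) V V)
  let π : T' →ₗ[ZMod 2] U' := LinearMap.codRestrict U' ((LinearMap.fst (ZMod 2) V V).comp T'.subtype)
    (fun x => x.2.2)
  have hπ : LinearMap.range π = ⊤ := by
    rw [LinearMap.range_eq_top]
    rintro ⟨u, hu⟩
    obtain ⟨w, hw⟩ := hT u hu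
    exact ⟨⟨(u, w), hw, hu⟩, rfl⟩
  obtain ⟨s, hs⟩ := π.exists_rightInverse_of_surjective hπ
  refine ⟨(LinearMap.snd (ZMod 2) V V).comp (T'.subtype.comp s), ?_⟩
  intro u
  have h1 : π (s u) = u := by
    have h := LinearMap.congr_fun hs u
    exact h
  have h2 : ((s u : T') : V × V).1 = (u : V) := congrArg Subtype.val h1
  have h3 : ((s u : T') : V × V) ∈ T := (s u).2.1
  have h4 : ((u : V), ((LinearMap.snd (ZMod 2) V V).comp (T'.subtype.comp s)) u) =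
      ((s u : T') : V × V) := Prod.ext h2.symm rfl
  rw [h4]
  exact h3

/-- The connecting map and its characterisation. -/
lemma AL_delta (S : SES d Z Z' A B C p) (n : ℕ) :
    ∃ F : Coh d Z' C n →ₗ[ZMod 2] Coh d Z A (n + 1),
      ∀ c (hc : c ∈ Cyc d Z' C n) (b : V) (_ : b ∈ B) (_ : p b - c ∈ Z' n)
        (a : V) (ha : a ∈ Cyc d Z A (n + 1)) (_ : a - d b ∈ Z (n + 1)),
        F (AL_cl c hc) = AL_cl a ha := by
  -- linear choices
  let T1 : Submodule (ZMod 2) (V × V) :=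
    B.comap (LinearMap.snd (ZMod 2) V V) ⊓
      (Z' n).comap (p.comp (LinearMap.snd (ZMod 2) V V) - LinearMap.fst (ZMod 2) V V)
  obtain ⟨β, hβ⟩ := AL_choice (U := Cyc d Z' C n) (U' := Cyc d Z' C n) T1 (by
    intro c hc
    obtain ⟨b, hb, hbc⟩ := S.surj n c hc.1
    exact ⟨b, hb, hbc⟩) rfl
  have hβB : ∀ c : Cyc d Z' C n, β c ∈ B := fun c => (hβ c).1
  have hβZ : ∀ c : Cyc d Z' C n, p (β c) - (c : V) ∈ Z' n := fun c => (hβ c).2
  let U2 : Submodule (ZMod 2) V := B ⊓ (Z' (n + 1)).comap p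
  let T2 : Submodule (ZMod 2) (V × V) :=
    A.comap (LinearMap.snd (ZMod 2) V V) ⊓
      (Z (n + 1)).comap (LinearMap.snd (ZMod 2) V V - LinearMap.fst (ZMod 2) V V)
  obtain ⟨α, hα⟩ := AL_choice (U := U2) (U' := U2) T2 (by
    intro b hb
    obtain ⟨a, ha, hab⟩ := S.mid (n + 1) b hb.1 hb.2
    exact ⟨a, ha, hab⟩) rfl
  have hαA : ∀ b : U2, α b ∈ A := fun b => (hα b).1
  have hαZ : ∀ b : U2, α b - (b : V) ∈ Z (n + 1) := fun b => (hα b).2
  have hdβ : ∀ c : Cyc d Z' C n, d (β c) ∈ U2 := by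
    intro c
    refine ⟨S.Bd _ (hβB c), ?_⟩
    change p (d (β c)) ∈ Z' (n + 1)
    rw [S.pd _ (hβB c)]
    have h1 : d (p (β c)) = d (p (β c) - (c : V)) + d (c : V) := by rw [map_sub, sub_add_cancel]
    rw [h1]
    exact add_mem (S.Zd' n _ (hβZ c)) c.2.2
  let γ : Cyc d Z' C n →ₗ[ZMod 2] V := α.comp (LinearMap.codRestrict U2 (d.comp β) hdβ)
  have hγA : ∀ c, γ c ∈ A := fun c => hαA _
  have hγZ : ∀ c, γ c - d (β c) ∈ Z (n + 1) := fun c => hαZ ⟨d (β c), hdβ c⟩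
  have hγC : ∀ c, γ c ∈ Cyc d Z A (n + 1) := by
    intro c
    refine ⟨hγA c, ?_⟩
    change d (γ c) ∈ Z (n + 1 + 1)
    have h1 : d (γ c) = d (γ c - d (β c)) := by rw [map_sub, S.d2, sub_zero]
    rw [h1]
    exact S.Zd _ _ (hγZ c)
  let f : Cyc d Z' C n →ₗ[ZMod 2] Coh d Z A (n + 1) :=
    (Submodule.mkQ _).comp (LinearMap.codRestrict (Cyc d Z A (n + 1)) γ hγC)
  have hf : ∀ c, f c = AL_cl (γ c) (hγC c) := fun c => rfl
  -- characterisation on cocycles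
  have key : ∀ (c : V) (hc : c ∈ Cyc d Z' C n) (b : V) (_ : b ∈ B) (_ : p b - c ∈ Z' n)
      (a : V) (ha : a ∈ Cyc d Z A (n + 1)) (_ : a - d b ∈ Z (n + 1)),
      f ⟨c, hc⟩ = AL_cl a ha := by
    intro c hc b hb hbc a ha hab
    rw [hf, AL_cl_eq, AL_mem_Bdy]
    set b0 := β ⟨c, hc⟩ with hb0
    have h1 : b0 - b ∈ B := sub_mem (hβB _) hb
    have h2 : p (b0 - b) ∈ Z' n := by
      have h3 : p (b0 - b) = (p b0 - c) - (p b - c) := by rw [map_sub]; abel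
      rw [h3]
      exact sub_mem (hβZ ⟨c, hc⟩) hbc
    obtain ⟨a0, ha0, h4⟩ := S.mid n _ h1 h2
    refine ⟨a0, ha0, γ ⟨c, hc⟩ - a - d a0, ?_, ?_, by abel⟩
    · exact sub_mem (sub_mem (hγA _) ha.1) (S.Ad a0 ha0)
    · have h5 : γ ⟨c, hc⟩ - a - d a0 = (γ ⟨c, hc⟩ - d b0) - (a - d b) - d (a0 - (b0 - b)) := by
        rw [map_sub, map_sub]
        abel
      rw [h5]
      exact sub_mem (sub_mem (hγZ _) hab) (S.Zd n _ h4)
  obtain ⟨F, hF⟩ := AL_desc (Y := Z') (Y' := Z) f (by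
    intro c hc hb
    have hzero : (0 : V) ∈ Cyc d Z A (n + 1) := zero_mem _
    have hz0 : AL_cl (0 : V) hzero = 0 := (AL_cl_zero hzero).mpr (zero_mem _)
    rw [← hz0]
    obtain ⟨c', hc', z, hz1, hz2, h⟩ := AL_mem_Bdy.mp hb
    cases n with
    | zero =>
      refine key c hc 0 (zero_mem _) ?_ 0 hzero ?_
      · rw [map_zero, zero_sub]
        exact neg_mem (S.zeroC c hc.1)
      · rw [map_zero, sub_zero]
        exact zero_mem _
    | succ m =>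
      obtain ⟨b', hb', h1⟩ := S.surj m c' hc'
      refine key c hc (d b') (S.Bd b' hb') ?_ 0 hzero ?_
      · have h2 : p (d b') - c = d (p b' - c') - z := by
          rw [S.pd b' hb', map_sub, ← h]
          abel
        rw [h2]
        exact sub_mem (S.Zd' m _ h1) hz2
      · rw [S.d2, sub_zero]
        exact zero_mem _)
  refine ⟨F, ?_⟩
  intro c hc b hb hbc a ha hab
  rw [hF]
  exact key c hc b hb hbc a ha hab

/-- Every cocycle of `C` has a lift as in the characterisation. -/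
lemma AL_lift (S : SES d Z Z' A B C p) {n : ℕ} {c : V} (hc : c ∈ Cyc d Z' C n) :
    ∃ b ∈ B, p b - c ∈ Z' n ∧ ∃ a, a ∈ Cyc d Z A (n + 1) ∧ a - d b ∈ Z (n + 1) := by
  obtain ⟨b, hb, hbc⟩ := S.surj n c hc.1
  have h1 : p (d b) ∈ Z' (n + 1) := by
    rw [S.pd _ hb]
    have h1 : d (p b) = d (p b - c) + d c := by rw [map_sub, sub_add_cancel]
    rw [h1]
    exact add_mem (S.Zd' n _ hbc) hc.2
  obtain ⟨a, ha, hab⟩ := S.mid (n + 1) (d b) (S.Bd b hb) h1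
  refine ⟨b, hb, hbc, a, ⟨ha, ?_⟩, hab⟩
  change d a ∈ Z (n + 1 + 1)
  have h2 : d a = d (a - d b) := by rw [map_sub, S.d2, sub_zero]
  rw [h2]
  exact S.Zd _ _ hab

lemma AL_sub_zero {W : Submodule (ZMod 2) V} {Y : ℕ → Submodule (ZMod 2) V}
    (h : ∀ v ∈ W, v ∈ Y 0) : Subsingleton (Coh d Y W 0) := by
  refine ⟨fun x y => ?_⟩
  have h0 : ∀ x : Coh d Y W 0, x = 0 := by
    intro x
    obtain ⟨v, hv, rfl⟩ := AL_cl_surj x
    rw [AL_cl_zero, AL_mem_Bdy]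
    exact ⟨0, zero_mem _, v, hv.1, h v hv.1, by rw [map_zero, zero_add]⟩
  rw [h0 x, h0 y]

theorem AL (S : SES d Z Z' A B C p) :
    ∃ (i : ∀ n, Coh d Z A n →ₗ[ZMod 2] Coh d Z B n)
      (q : ∀ n, Coh d Z B n →ₗ[ZMod 2] Coh d Z' C n)
      (δ : ∀ n, Coh d Z' C n →ₗ[ZMod 2] Coh d Z A (n + 1)),
      (∀ n, LinearMap.range (i n) = LinearMap.ker (q n)) ∧
      (∀ n, LinearMap.range (q n) = LinearMap.ker (δ n)) ∧
      (∀ n, LinearMap.range (δ n) = LinearMap.ker (i (n + 1))) ∧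
      Subsingleton (Coh d Z A 0) ∧ Subsingleton (Coh d Z B 0) ∧ Subsingleton (Coh d Z' C 0) := by
  choose i hi using AL_i S
  choose q hq using AL_q S
  choose δ hδ using AL_delta S
  refine ⟨i, q, δ, ?_, ?_, ?_, AL_sub_zero fun v hv => S.zeroB v (S.AB hv),
    AL_sub_zero S.zeroB, AL_sub_zero S.zeroC⟩
  · intro n
    ext x
    rw [LinearMap.mem_range, LinearMap.mem_ker]
    constructor
    · rintro ⟨y, rfl⟩
      obtain ⟨a, ha, rfl⟩ := AL_cl_surj y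
      rw [hi, hq, AL_cl_zero, AL_mem_Bdy]
      exact ⟨0, zero_mem _, p a, S.pB a (S.AB ha.1), S.comp n a ha.1, by rw [map_zero, zero_add]⟩
    · intro hx
      obtain ⟨b, hb, rfl⟩ := AL_cl_surj x
      rw [hq, AL_cl_zero, AL_mem_Bdy] at hx
      obtain ⟨c', hc', z, hz1, hz2, h⟩ := hx
      -- a primitive
      have hb1 : ∃ b' ∈ B, p (b - d b') ∈ Z' n := by
        cases n with
        | zero =>
          refine ⟨0, zero_mem _, ?_⟩
          rw [map_zero, sub_zero]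
          exact S.zeroC _ (S.pB b hb.1)
        | succ m =>
          obtain ⟨b', hb', h1⟩ := S.surj m c' hc'
          refine ⟨b', hb', ?_⟩
          have h2 : p (b - d b') = z - d (p b' - c') := by
            rw [map_sub, S.pd b' hb', map_sub, ← h]
            abel
          rw [h2]
          exact sub_mem hz2 (S.Zd' m _ h1)
      obtain ⟨b', hb', h3⟩ := hb1
      obtain ⟨a, ha, hab⟩ := S.mid n _ (sub_mem hb.1 (S.Bd b' hb')) h3
      have haC : a ∈ Cyc d Z A n := by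
        refine ⟨ha, ?_⟩
        change d a ∈ Z (n + 1)
        have h4 : d a = d (a - (b - d b')) + d b := by
          rw [map_sub, map_sub, S.d2]
          abel
        rw [h4]
        exact add_mem (S.Zd n _ hab) hb.2
      refine ⟨AL_cl a haC, ?_⟩
      rw [hi, AL_cl_eq, AL_mem_Bdy]
      refine ⟨-b', neg_mem hb', a - (b - d b'), ?_, hab, ?_⟩
      · exact sub_mem (S.AB ha) (sub_mem hb.1 (S.Bd b' hb'))
      · rw [map_neg]
        abel
  · intro n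
    ext x
    rw [LinearMap.mem_range, LinearMap.mem_ker]
    constructor
    · rintro ⟨y, rfl⟩
      obtain ⟨b, hb, rfl⟩ := AL_cl_surj y
      have hzero : (0 : V) ∈ Cyc d Z A (n + 1) := zero_mem _
      rw [hq, hδ n (p b) (AL_p_cyc S hb) b hb.1 (by rw [sub_self]; exact zero_mem _) 0 hzero
        (by rw [zero_sub]; exact neg_mem hb.2)]
      exact (AL_cl_zero hzero).mpr (zero_mem _)
    · intro hx
      obtain ⟨c, hc, rfl⟩ := AL_cl_surj x
      obtain ⟨b, hb, hbc, a, ha, hab⟩ := AL_lift S hc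
      rw [hδ n c hc b hb hbc a ha hab, AL_cl_zero, AL_mem_Bdy] at hx
      obtain ⟨a', ha', z, hz1, hz2, h⟩ := hx
      have h1 : b - a' ∈ Cyc d Z B n := by
        refine ⟨sub_mem hb (S.AB ha'), ?_⟩
        change d (b - a') ∈ Z (n + 1)
        have h2 : d (b - a') = z - (a - d b) := by
          rw [map_sub, ← h]
          abel
        rw [h2]
        exact sub_mem hz2 hab
      refine ⟨AL_cl (b - a') h1, ?_⟩
      rw [hq, AL_cl_eq, AL_mem_Bdy]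
      refine ⟨0, zero_mem _, p (b - a') - c, ?_, ?_, by rw [map_zero, zero_add]⟩
      · exact sub_mem (S.pB _ h1.1) hc.1
      · have h3 : p (b - a') - c = (p b - c) - p a' := by rw [map_sub]; abel
        rw [h3]
        exact sub_mem hbc (S.comp n a' ha')
  · intro n
    ext x
    rw [LinearMap.mem_range, LinearMap.mem_ker]
    constructor
    · rintro ⟨y, rfl⟩
      obtain ⟨c, hc, rfl⟩ := AL_cl_surj y
      obtain ⟨b, hb, hbc, a, ha, hab⟩ := AL_lift S hc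
      rw [hδ n c hc b hb hbc a ha hab, hi, AL_cl_zero, AL_mem_Bdy]
      exact ⟨b, hb, a - d b, sub_mem (S.AB ha.1) (S.Bd b hb), hab, by abel⟩
    · intro hx
      obtain ⟨a, ha, rfl⟩ := AL_cl_surj x
      rw [hi, AL_cl_zero, AL_mem_Bdy] at hx
      obtain ⟨b, hb, z, hz1, hz2, h⟩ := hx
      have hc : p b ∈ Cyc d Z' C n := by
        refine ⟨S.pB b hb, ?_⟩
        change d (p b) ∈ Z' (n + 1)
        have h1 : d (p b) = p a - p z := by
          rw [← S.pd b hb, ← map_sub, ← h]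
          congr 1
          abel
        rw [h1]
        exact sub_mem (S.comp _ a ha.1) (S.pZ _ z hz1 hz2)
      refine ⟨AL_cl (p b) hc, ?_⟩
      refine hδ n (p b) hc b hb (by rw [sub_self]; exact zero_mem _) a ha ?_
      have h2 : a - d b = z := by rw [← h]; abel
      rw [h2]
      exact hz2

end

end Pool.Agent.helper62.K3
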