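import Mathlib
import Pool.Agent.helper62.K3.Defs

/-!
# HK: finiteness from a long exact sequence (module LE1)
-/

set_option autoImplicit false

noncomputable section

namespace Pool.Agent.helper62.K3

lemma LE1_mid {X Y Z : Type} [AddCommGroup X] [Module (ZMod 2) X] [AddCommGroup Y]
    [Module (ZMod 2) Y] [AddCommGroup Z] [Module (ZMod 2) Z] (f : X →ₗ[ZMod 2] Y)
    (g : Y →ₗ[ZMod 2] Z) (h : LinearMap.range f = LinearMap.ker g)
    (hX : Module.Finite (ZMod 2) X) (hZ : Module.Finite (ZMod 2) Z) :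
    Module.Finite (ZMod 2) Y := by
  rw [Module.finite_def]
  refine Submodule.fg_of_fg_map_of_fg_inf_ker g ?_ ?_
  · exact IsNoetherian.noetherian _
  · rw [top_inf_eq, ← h, LinearMap.range_eq_map]
    exact (Module.finite_def.mp hX).map f

theorem LE1 (A B C : ℕ → Type) [∀ n, AddCommGroup (A n)] [∀ n, Module (ZMod 2) (A n)]
    [∀ n, AddCommGroup (B n)] [∀ n, Module (ZMod 2) (B n)]
    [∀ n, AddCommGroup (C n)] [∀ n, Module (ZMod 2) (C n)]
    (i : ∀ n, A n →ₗ[ZMod 2] B n) (q : ∀ n, B n →ₗ[ZMod 2] C n)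
    (δ : ∀ n, C n →ₗ[ZMod 2] A (n + 1))
    (h1 : ∀ n, LinearMap.range (i n) = LinearMap.ker (q n))
    (h2 : ∀ n, LinearMap.range (q n) = LinearMap.ker (δ n))
    (h3 : ∀ n, LinearMap.range (δ n) = LinearMap.ker (i (n + 1)))
    (hA : Subsingleton (A 0)) :
    ((∀ n, Module.Finite (ZMod 2) (B n)) → (∀ n, Module.Finite (ZMod 2) (C n)) →
      ∀ n, Module.Finite (ZMod 2) (A n)) ∧
    (∀ D : ℕ, (∀ n, Module.Finite (ZMod 2) (B n)) → (∀ n, D < n → Subsingleton (A n)) →
      (∀ n, Module.Finite (ZMod 2) (C n) → Module.Finite (ZMod 2) (A n)) →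
      ∀ n, Module.Finite (ZMod 2) (A n)) := by
  have _ := h1
  have h0 : Module.Finite (ZMod 2) (A 0) := Module.Finite.of_finite
  refine ⟨?_, ?_⟩
  · intro hB hC n
    cases n with
    | zero => exact h0
    | succ m => exact LE1_mid (δ m) (i (m + 1)) (h3 m) (hC m) (hB (m + 1))
  · intro D hB hD hCA
    have key : ∀ k n, D < n + k → Module.Finite (ZMod 2) (A n) := by
      intro k
      induction k with
      | zero =>
        intro n hn
        have : Subsingleton (A n) := hD n hn
        exact Module.Finite.of_finite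
      | succ k ih =>
        intro n hn
        have h4 : Module.Finite (ZMod 2) (A (n + 1)) := ih (n + 1) (by omega)
        exact hCA n (LE1_mid (q n) (δ n) (h2 n) (hB n) h4)
    intro n
    exact key (D + 1) n (by omega)

end Pool.Agent.helper62.K3
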